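import Pool.Agent.Q54.EM.StmG

/-!
# Project EM (helper54), jobs MB1 and MB2: the two bounds for a minimiser
-/

set_option autoImplicit false

namespace Pool.Agent.Q75.EM

open Finset Pool.Agent.Q54.EM

/-- Comparison of the probabilities of two families of positions with the same weights. -/
theorem pr_le (hT : S_TUP) {ι : Type} [Fintype ι] {p x x' : ι → ℝ} {k : ℕ} (hp : ∀ i, 0 ≤ p i)
    (h : ∀ v : Fin k → ι, (k : ℝ) ≤ ∑ i, x (v i) → (k : ℝ) ≤ ∑ i, x' (v i)) :
    PR p x' k k ≤ PR p x k k := by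
  unfold PR
  rw [hT ι p x' k, hT ι p x k]
  unfold TE
  refine Finset.sum_le_sum fun v _ => ?_
  refine mul_le_mul_of_nonneg_left ?_ (Finset.prod_nonneg fun i _ => hp _)
  show (if ∑ i, x' (v i) < (k : ℝ) then (1 : ℝ) else 0) ≤ if ∑ i, x (v i) < (k : ℝ) then 1 else 0
  by_cases h1 : ∑ i, x' (v i) < (k : ℝ)
  · have h2 : ∑ i, x (v i) < (k : ℝ) := by
      by_contra h3
      exact absurd (h v (not_lt.1 h3)) (not_le.2 h1)
    rw [if_pos h1, if_pos h2]
  · rw [if_neg h1]
    split_ifs <;> norm_num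

/-- A small positive number below finitely many positive numbers. -/
theorem exists_small {ι : Type} [Fintype ι] (s : ι → Prop) (g : ι → ℝ) (hg : ∀ i, s i → 0 < g i) :
    ∃ d : ℝ, 0 < d ∧ d ≤ 1 ∧ ∀ i, s i → d ≤ g i := by
  classical
  by_cases hne : (univ.filter s).Nonempty
  · refine ⟨min 1 ((univ.filter s).inf' hne g), ?_, min_le_left _ _, ?_⟩
    · refine lt_min one_pos ?_
      rw [Finset.lt_inf'_iff]
      intro i hi
      exact hg i (Finset.mem_filter.1 hi).2
    · intro i hi
      exact (min_le_right _ _).trans (Finset.inf'_le g (Finset.mem_filter.2 ⟨mem_univ i, hi⟩))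
  · refine ⟨1, one_pos, le_rfl, fun i hi => ?_⟩
    exact absurd ⟨i, Finset.mem_filter.2 ⟨mem_univ i, hi⟩⟩ hne

/-- **MB1**. -/
theorem mb1 : S_STR → S_TUP → S_EEL → S_MB1 := by
  intro hS hT _ ι _ k r o t p x hk hr hM
  by_contra hcon
  rw [not_le] at hcon
  obtain ⟨hF, hmin⟩ := id hM
  have hk1 : (1 : ℝ) ≤ k := by exact_mod_cast hk
  obtain ⟨d, hd0, hd1, hdx⟩ := exists_small (fun i => 0 < x i) x (fun i hi => hi)
  set x' : ι → ℝ := fun i => if 0 < x i then min (k : ℝ) (x i + d * (x i - 1)) else 0 with hx'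
  have hpos : ∀ i, 0 < x i → x' i = min (k : ℝ) (x i + d * (x i - 1)) := fun i hi => by
    simp only [hx', if_pos hi]
  have hneg : ∀ i, ¬ 0 < x i → x' i = 0 := fun i hi => by simp only [hx', if_neg hi]
  have h0 : ∀ i, 0 ≤ x' i := by
    intro i
    by_cases hi : 0 < x i
    · rw [hpos i hi]
      refine le_min (by linarith) ?_
      have := hdx i hi
      nlinarith
    · rw [hneg i hi]
  have hle : ∀ i, x' i ≤ k := by
    intro i
    by_cases hi : 0 < x i
    · rw [hpos i hi]; exact min_le_left _ _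
    · rw [hneg i hi]; linarith
  have ho : x' o = 0 := hneg o (by rw [hF.xo]; exact lt_irrefl _)
  have ht : x' t = k := by
    rw [hpos t (by rw [hF.xt]; linarith), hF.xt]
    refine min_eq_left ?_
    nlinarith
  have hmu : mu p x' < r := by
    have e1 : mu p x' ≤ ∑ i, (p i * x i + d * (p i * x i) - d * (if 0 < x i then p i else 0)) := by
      unfold mu
      refine Finset.sum_le_sum fun i _ => ?_
      by_cases hi : 0 < x i
      · rw [hpos i hi, if_pos hi]
        have := mul_le_mul_of_nonneg_left (min_le_right (k : ℝ) (x i + d * (x i - 1))) (hF.p0 i)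
        refine this.trans (le_of_eq ?_)
        ring
      · have hxi : x i = 0 := le_antisymm (not_lt.1 hi) (hF.x0 i)
        rw [hneg i hi, if_neg hi, hxi]
        simp
    have e2 : ∑ i, (p i * x i + d * (p i * x i) - d * (if 0 < x i then p i else 0)) =
        r + d * (r - ∑ i, (if 0 < x i then p i else 0)) := by
      rw [Finset.sum_sub_distrib, Finset.sum_add_distrib, ← Finset.mul_sum, ← Finset.mul_sum]
      have : ∑ i, p i * x i = r := hF.m
      rw [this]
      ring
    rw [e2] at e1
    have : d * (r - ∑ i, (if 0 < x i then p i else 0)) < 0 :=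
      mul_neg_of_pos_of_neg hd0 (by linarith)
    linarith
  have hlt := hS ι k r o t p x p x' hk hr hM hF.p0 hF.p1 h0 hle ho ht hmu
  refine absurd (pr_le hT hF.p0 ?_) (not_le.2 hlt)
  intro v hv
  by_cases hc : ∃ i, x' (v i) = k
  · obtain ⟨i, hi⟩ := hc
    rw [← hi]
    exact Finset.single_le_sum (f := fun i => x' (v i)) (fun j _ => h0 (v j)) (mem_univ i)
  · push Not at hc
    have e1 : ∀ i, x (v i) + d * (x (v i) - 1) ≤ x' (v i) := by
      intro i
      by_cases hi : 0 < x (v i)
      · have h2 := hc i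
        rw [hpos _ hi] at h2 ⊢
        rcases le_total (k : ℝ) (x (v i) + d * (x (v i) - 1)) with h3 | h3
        · exact absurd (min_eq_left h3) h2
        · rw [min_eq_right h3]
      · have hxi : x (v i) = 0 := le_antisymm (not_lt.1 hi) (hF.x0 _)
        rw [hneg _ hi, hxi]
        linarith
    have e2 : ∑ i, (x (v i) + d * (x (v i) - 1)) ≤ ∑ i, x' (v i) :=
      Finset.sum_le_sum fun i _ => e1 i
    refine le_trans ?_ e2
    rw [Finset.sum_add_distrib, ← Finset.mul_sum, Finset.sum_sub_distrib]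
    simp only [Finset.sum_const, Finset.card_univ, Fintype.card_fin, nsmul_eq_mul, mul_one]
    nlinarith

/-- **MB2**. -/
theorem mb2 : S_STR → S_TUP → S_EEL → S_MB2 := by
  intro hS hT _ ι _ k r o t p x hk hr hM
  by_contra hcon
  rw [not_le] at hcon
  obtain ⟨hF, hmin⟩ := id hM
  have hk1 : (1 : ℝ) ≤ k := by exact_mod_cast hk
  have hk0 : (0 : ℝ) < k := by linarith
  obtain ⟨d, hd0, hd1, hdx⟩ := exists_small (fun i => (k : ℝ) / 2 < x i)
    (fun i => (2 * x i - k) / k ^ 2) (fun i hi => by
      have : 0 < 2 * x i - k := by linarith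
      positivity)
  have hdx' : ∀ i, (k : ℝ) / 2 < x i → d * k ^ 2 ≤ 2 * x i - k := by
    intro i hi
    have := hdx i hi
    rwa [le_div_iff₀ (by positivity)] at this
  set x' : ι → ℝ := fun i => if (k : ℝ) / 2 < x i then x i - d * (k - x i) else (1 + d) * x i
    with hx'
  have hbig : ∀ i, (k : ℝ) / 2 < x i → x' i = x i - d * (k - x i) := fun i hi => by
    simp only [hx', if_pos hi]
  have hsm : ∀ i, ¬ (k : ℝ) / 2 < x i → x' i = (1 + d) * x i := fun i hi => by
    simp only [hx', if_neg hi]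
  have h0 : ∀ i, 0 ≤ x' i := by
    intro i
    have := hF.x0 i
    have := hF.xk i
    by_cases hi : (k : ℝ) / 2 < x i
    · rw [hbig i hi]
      nlinarith
    · rw [hsm i hi]
      positivity
  have hle : ∀ i, x' i ≤ k := by
    intro i
    have h1 := hF.x0 i
    have h2 := hF.xk i
    by_cases hi : (k : ℝ) / 2 < x i
    · rw [hbig i hi]
      nlinarith
    · rw [hsm i hi]
      rw [not_lt] at hi
      nlinarith
  have ho : x' o = 0 := by
    rw [hsm o (by rw [hF.xo]; intro h; linarith), hF.xo, mul_zero]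
  have ht : x' t = k := by
    rw [hbig t (by rw [hF.xt]; linarith), hF.xt]
    ring
  have hmu : mu p x' < r := by
    have e1 : mu p x' =
        ∑ i, ((1 + d) * (p i * x i) - d * k * (if (k : ℝ) / 2 < x i then p i else 0)) := by
      unfold mu
      refine Finset.sum_congr rfl fun i _ => ?_
      by_cases hi : (k : ℝ) / 2 < x i
      · rw [hbig i hi, if_pos hi]
        ring
      · rw [hsm i hi, if_neg hi]
        ring
    rw [e1, Finset.sum_sub_distrib, ← Finset.mul_sum, ← Finset.mul_sum]
    have : ∑ i, p i * x i = r := hF.m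
    rw [this]
    have := mul_pos hd0 (sub_pos.2 hcon)
    nlinarith
  have hlt := hS ι k r o t p x p x' hk hr hM hF.p0 hF.p1 h0 hle ho ht hmu
  refine absurd (pr_le hT hF.p0 ?_) (not_le.2 hlt)
  intro v hv
  classical
  set J : Finset (Fin k) := univ.filter fun i => (k : ℝ) / 2 < x (v i) with hJ
  have e1 : ∑ i, x' (v i) = (1 + d) * ∑ i, x (v i) - d * k * J.card := by
    have e2 : ∀ i : Fin k, x' (v i) =
        (1 + d) * x (v i) - d * k * (if (k : ℝ) / 2 < x (v i) then 1 else 0) := by
      intro i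
      by_cases hi : (k : ℝ) / 2 < x (v i)
      · rw [hbig _ hi, if_pos hi]
        ring
      · rw [hsm _ hi, if_neg hi]
        ring
    rw [Finset.sum_congr rfl fun i _ => e2 i, Finset.sum_sub_distrib, ← Finset.mul_sum,
      ← Finset.mul_sum]
    congr 2
    rw [Finset.sum_boole]
  rw [e1]
  rcases Nat.lt_or_ge J.card 2 with hc | hc
  · have hc1 : (J.card : ℝ) ≤ 1 := by exact_mod_cast Nat.lt_succ_iff.1 hc
    have : d * k * J.card ≤ d * k * 1 := mul_le_mul_of_nonneg_left hc1 (by positivity)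
    nlinarith
  · obtain ⟨a, ha, b, hb, hab⟩ := Finset.one_lt_card.1 (show 1 < J.card by omega)
    have ha' : (k : ℝ) / 2 < x (v a) := (Finset.mem_filter.1 ha).2
    have hb' : (k : ℝ) / 2 < x (v b) := (Finset.mem_filter.1 hb).2
    have h2 : x (v a) + x (v b) ≤ ∑ i, x (v i) := by
      have h3 : ∑ i ∈ ({a, b} : Finset (Fin k)), x (v i) ≤ ∑ i, x (v i) :=
        Finset.sum_le_sum_of_subset_of_nonneg (Finset.subset_univ _) fun i _ _ => hF.x0 _
      rwa [Finset.sum_pair hab] at h3
    have h4 := hdx' _ ha'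
    have h5 := hdx' _ hb'
    have h6 : (J.card : ℝ) ≤ k := by
      have := Finset.card_le_univ J
      rw [Fintype.card_fin] at this
      exact_mod_cast this
    have h7 : d * k * J.card ≤ d * k * k := mul_le_mul_of_nonneg_left h6 (by positivity)
    have h8 : d * k ^ 2 ≤ ∑ i, x (v i) - k := by
      nlinarith
    have h9 : 0 ≤ d * ∑ i, x (v i) := mul_nonneg hd0.le (Finset.sum_nonneg fun i _ => hF.x0 _)
    nlinarith

end Pool.Agent.Q75.EM
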