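import Pool.Agent.Q54.EM.StmE

/-!
# Project EM (helper54), job SMA: upper tails for small atoms
-/

set_option autoImplicit false

namespace Pool.Agent.Q75.EM

open Finset Pool.Agent.Q54.EM

/-- Upper tail. -/
noncomputable def At {ι : Type} [Fintype ι] (w x : ι → ℝ) (n : ℕ) (y : ℝ) : ℝ :=
  EE w x n (fun s => if y ≤ s then 1 else 0)

theorem at_step (hS : S_SZB) (hE : S_EEL) {ι : Type} [Fintype ι] {w x : ι → ℝ} {d : ℝ}
    (hw : ∀ i, 0 ≤ w i) (hx : ∀ i, 0 ≤ x i) (hd : ∀ i, w i ≠ 0 → x i ≤ d) (n : ℕ) {y : ℝ} :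
    y * At w x (n + 1) y ≤ (n + 1 : ℝ) * ((∑ i, w i * x i) * At w x n (y - d)) := by
  have e1 := (hE ι w x (n + 1)).2.2.1 y (fun s => if y ≤ s then 1 else 0)
  have e2 := (hE ι w x (n + 1)).2.2.2.1 hw hx (fun s => y * (if y ≤ s then 1 else 0))
    (fun s => s * (if y ≤ s then 1 else 0)) (by
      intro s _
      show y * (if y ≤ s then 1 else 0) ≤ s * (if y ≤ s then 1 else 0)
      split_ifs with h
      · linarith
      · simp)
  have e3 := hS ι w x n (fun s => if y ≤ s then 1 else 0)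
  unfold At
  rw [← e1]
  refine e2.trans ?_
  rw [e3, Finset.sum_mul]
  refine mul_le_mul_of_nonneg_left ?_ (by positivity)
  refine Finset.sum_le_sum fun i _ => ?_
  by_cases h0 : w i = 0
  · simp [h0]
  · refine mul_le_mul_of_nonneg_left ?_ (mul_nonneg (hw i) (hx i))
    refine (hE ι w x n).2.2.2.1 hw hx _ _ ?_
    intro s _
    have hdi := hd i h0
    show (if y ≤ s + x i then (1 : ℝ) else 0) ≤ (if y - d ≤ s then 1 else 0)
    by_cases h1 : y ≤ s + x i
    · have h2 : y - d ≤ s := by linarith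
      simp [h1, h2]
    · rw [if_neg h1]
      split_ifs <;> norm_num

theorem mass_le {ι : Type} [Fintype ι] {w x : ι → ℝ} (hw : ∀ i, 0 ≤ w i) (h1 : ∑ i, w i ≤ 1)
    (n : ℕ) : 0 ≤ EE w x n (fun _ => 1) ∧ EE w x n (fun _ => 1) ≤ 1 := by
  induction n with
  | zero => simp [EE]
  | succ n ih =>
    show 0 ≤ ∑ i, w i * EE w x n (fun _ => 1) ∧ ∑ i, w i * EE w x n (fun _ => 1) ≤ 1
    rw [← Finset.sum_mul]
    have h0 : 0 ≤ ∑ i, w i := Finset.sum_nonneg fun i _ => hw i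
    exact ⟨mul_nonneg h0 ih.1, mul_le_one₀ h1 ih.1 ih.2⟩

theorem at_bounds (hE : S_EEL) {ι : Type} [Fintype ι] {w x : ι → ℝ} (hw : ∀ i, 0 ≤ w i)
    (hx : ∀ i, 0 ≤ x i) (h1 : ∑ i, w i ≤ 1) (n : ℕ) (y : ℝ) :
    0 ≤ At w x n y ∧ At w x n y ≤ 1 := by
  constructor
  · have e0 := (hE ι w x n).2.2.1 0 (fun _ => 1)
    simp only [zero_mul] at e0
    refine le_of_eq_of_le e0.symm ?_
    refine (hE ι w x n).2.2.2.1 hw hx _ _ fun s _ => ?_
    show (0 : ℝ) ≤ if y ≤ s then 1 else 0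
    split_ifs <;> norm_num
  · refine le_trans ?_ (mass_le (x := x) hw h1 n).2
    refine (hE ι w x n).2.2.2.1 hw hx _ _ fun s _ => ?_
    show (if y ≤ s then (1 : ℝ) else 0) ≤ 1
    split_ifs <;> norm_num

/-- **SMA**. -/
theorem sma : S_SZB → S_EEL → S_SMA := by
  intro hS hE ι _ w x k d hk hw h1 hx hd hd0 h2d
  obtain ⟨n, rfl⟩ : ∃ n, k = n + 3 := ⟨k - 3, by omega⟩
  set m : ℝ := ∑ i, w i * x i with hm
  have hm0 : 0 ≤ m := Finset.sum_nonneg fun i _ => mul_nonneg (hw i) (hx i)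
  set K : ℝ := ((n + 3 : ℕ) : ℝ) with hK
  have hKn : K = (n : ℝ) + 3 := by rw [hK]; push_cast; ring
  have hn0 : (0 : ℝ) ≤ n := Nat.cast_nonneg n
  have hK0 : 0 < K := by rw [hKn]; positivity
  have s1 := at_step hS hE hw hx hd (n + 2) (y := K)
  have s2 := at_step hS hE hw hx hd (n + 1) (y := K - d)
  have s3 := at_step hS hE hw hx hd n (y := K - d - d)
  rw [← hm] at s1 s2 s3
  have b1 := (at_bounds hE hw hx h1 n (K - d - d - d))
  have b2 := (at_bounds hE hw hx h1 (n + 1) (K - d - d))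
  have b3 := (at_bounds hE hw hx h1 (n + 2) (K - d))
  have b4 := (at_bounds hE hw hx h1 (n + 3) K)
  have c1 : At w x (n + 3) K ≤ m * At w x (n + 2) (K - d) := by
    have e : ((n + 2 : ℕ) : ℝ) + 1 = K := by rw [hKn]; push_cast; ring
    rw [e] at s1
    exact le_of_mul_le_mul_left s1 hK0
  refine ⟨c1, ?_⟩
  have e2 : ((n + 1 : ℕ) : ℝ) + 1 = K - 1 := by rw [hKn]; push_cast; ring
  have e3 : (n : ℝ) + 1 = K - 2 := by rw [hKn]; ring
  rw [e2] at s2
  rw [e3] at s3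
  have hKd : 0 < K - d := by linarith
  have hKd2 : 0 < K - d - d := by linarith
  have c3 : (K - d - d) * At w x (n + 1) (K - d - d) ≤ (K - 2) * m := by
    refine s3.trans ?_
    refine mul_le_mul_of_nonneg_left ?_ (by linarith)
    exact mul_le_of_le_one_right hm0 b1.2
  have hK2 : 0 ≤ K - 2 := by linarith
  have hK1 : 0 ≤ K - 1 := by linarith
  have c4 : (K - d - d) * ((K - d) * At w x (n + 2) (K - d)) ≤ (K - 1) * (m * ((K - 2) * m)) := by
    calc (K - d - d) * ((K - d) * At w x (n + 2) (K - d))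
        ≤ (K - d - d) * ((K - 1) * (m * At w x (n + 1) (K - d - d))) :=
          mul_le_mul_of_nonneg_left s2 hKd2.le
      _ = (K - 1) * (m * ((K - d - d) * At w x (n + 1) (K - d - d))) := by ring
      _ ≤ (K - 1) * (m * ((K - 2) * m)) :=
          mul_le_mul_of_nonneg_left (mul_le_mul_of_nonneg_left c3 hm0) hK1
  have c5 : At w x (n + 3) K * ((K - d) * (K - d - d)) ≤ m ^ 3 * ((K - 1) * (K - 2)) := by
    calc At w x (n + 3) K * ((K - d) * (K - d - d))
        ≤ (m * At w x (n + 2) (K - d)) * ((K - d) * (K - d - d)) :=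
          mul_le_mul_of_nonneg_right c1 (by positivity)
      _ = m * ((K - d - d) * ((K - d) * At w x (n + 2) (K - d))) := by ring
      _ ≤ m * ((K - 1) * (m * ((K - 2) * m))) := mul_le_mul_of_nonneg_left c4 hm0
      _ = m ^ 3 * ((K - 1) * (K - 2)) := by ring
  have c6 : m ^ 3 * ((K - 1) * (K - 2)) ≤ m ^ 3 * K ^ 2 := by
    refine mul_le_mul_of_nonneg_left ?_ (by positivity)
    nlinarith
  have c7 : (1 - d / K) * (1 - 2 * (d / K)) = ((K - d) * (K - d - d)) / K ^ 2 := by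
    field_simp
    ring
  show At w x (n + 3) K * ((1 - d / K) * (1 - 2 * (d / K))) ≤ m ^ 3
  rw [c7, ← mul_div_assoc, div_le_iff₀ (by positivity)]
  exact c5.trans c6

end Pool.Agent.Q75.EM
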