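import Pool.Agent.Q50.EM.Spec
import Pool.Agent.Q75.EX.Sl

/-!
# Lie algebras of two by two matrices without common eigenvector
-/

set_option autoImplicit false

open Matrix

namespace Pool.Agent.Q75.EM

variable {K : Type} [Field K]

/-- the condition that `(p, q)` is an eigenvector -/
theorem eig_of (M : Matrix (Fin 2) (Fin 2) K) (p q : K) (hpq : ¬ (p = 0 ∧ q = 0))
    (h : p * q * (M 0 0 - M 1 1) + q ^ 2 * M 0 1 - p ^ 2 * M 1 0 = 0) :
    ∃ c : K, M *ᵥ ![p, q] = c • ![p, q] := by
  by_cases hp : p = 0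
  · have hq : q ≠ 0 := fun hq => hpq ⟨hp, hq⟩
    have h1 : M 0 1 = 0 := by
      rw [hp] at h
      have h2 : q ^ 2 * M 0 1 = 0 := by linear_combination h
      rcases mul_eq_zero.1 h2 with h3 | h3
      · exact absurd (pow_eq_zero_iff (two_ne_zero) |>.1 h3) hq
      · exact h3
    refine ⟨M 1 1, ?_⟩
    ext i
    fin_cases i
    · simp [Matrix.mulVec, dotProduct, Fin.sum_univ_two, hp, h1]
    · simp [Matrix.mulVec, dotProduct, Fin.sum_univ_two, hp]
  · refine ⟨(M 0 0 * p + M 0 1 * q) / p, ?_⟩
    ext i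
    fin_cases i
    · simp [Matrix.mulVec, dotProduct, Fin.sum_univ_two]
      field_simp
    · simp [Matrix.mulVec, dotProduct, Fin.sum_univ_two]
      field_simp
      linear_combination -h

/-- binary quadratic forms have zeros -/
theorem zero_of [IsAlgClosed K] (a b c : K) :
    ∃ p q : K, ¬ (p = 0 ∧ q = 0) ∧ p * q * a + q ^ 2 * b - p ^ 2 * c = 0 := by
  by_cases hc : c = 0
  · refine ⟨1, 0, by simp, by simp [hc]⟩
  · have h1 : (Polynomial.C (-c) * Polynomial.X ^ 2 + Polynomial.C a * Polynomial.X +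
        Polynomial.C b : Polynomial K).degree ≠ 0 := by
      rw [Polynomial.degree_quadratic (neg_ne_zero.2 hc)]
      decide
    obtain ⟨p, hp⟩ := IsAlgClosed.exists_root _ h1
    refine ⟨p, 1, by simp, ?_⟩
    rw [Polynomial.IsRoot.def] at hp
    simp only [Polynomial.eval_add, Polynomial.eval_mul, Polynomial.eval_C, Polynomial.eval_pow,
      Polynomial.eval_X] at hp
    linear_combination hp

theorem j1 : Q50.EM.J1 := by
  intro K _ _ _ S hS hv x hx
  -- the submodule with the scalars
  let S' : Submodule K (Matrix (Fin 2) (Fin 2) K) := S ⊔ K ∙ 1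
  have hS' : ∀ y, y ∈ S' ↔ ∃ s ∈ S, ∃ c : K, y = s + c • 1 := by
    intro y
    rw [Submodule.mem_sup]
    constructor
    · rintro ⟨s, hs, z, hz, rfl⟩
      obtain ⟨c, rfl⟩ := Submodule.mem_span_singleton.1 hz
      exact ⟨s, hs, c, rfl⟩
    · rintro ⟨s, hs, c, rfl⟩
      exact ⟨s, hs, c • 1, Submodule.smul_mem _ _ (Submodule.mem_span_singleton_self _), rfl⟩
  have hbr : ∀ y ∈ S', ∀ z ∈ S', y * z - z * y ∈ S := by
    intro y hy z hz
    obtain ⟨s, hs, c, rfl⟩ := (hS' y).1 hy
    obtain ⟨t, ht, d, rfl⟩ := (hS' z).1 hz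
    have h1 : (s + c • 1) * (t + d • 1) - (t + d • 1) * (s + c • (1 : Matrix (Fin 2) (Fin 2) K)) =
        s * t - t * s := by
      simp only [mul_add, add_mul, Matrix.mul_smul, Matrix.smul_mul, mul_one, one_mul]
      rw [smul_comm d c]
      abel
    rw [h1]
    exact hS s hs t ht
  have hev : ∀ p q : K, ¬ (p = 0 ∧ q = 0) →
      ¬ ∀ M ∈ S', p * q * (M 0 0 - M 1 1) + q ^ 2 * M 0 1 - p ^ 2 * M 1 0 = 0 := by
    intro p q hpq h
    refine hv ![p, q] ?_ ?_
    · intro h0
      exact hpq ⟨by simpa using congrFun h0 0, by simpa using congrFun h0 1⟩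
    · intro y hy
      exact eig_of y p q hpq (h y ((hS' y).2 ⟨y, hy, 0, by simp⟩))
  have htop : S' = ⊤ := by
    by_contra hne
    obtain ⟨f, hf0, hf⟩ := Submodule.exists_dual_map_eq_bot_of_lt_top (lt_top_iff_ne_top.2 hne)
      inferInstance
    have hf1 : ∀ y ∈ S', f y = 0 := by
      intro y hy
      have : f y ∈ S'.map f := Submodule.mem_map_of_mem hy
      rw [hf] at this
      exact (Submodule.mem_bot K).1 this
    have hexp : ∀ M : Matrix (Fin 2) (Fin 2) K, f M = M 0 0 * f (single 0 0 1) +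
        M 0 1 * f (single 0 1 1) + M 1 0 * f (single 1 0 1) + M 1 1 * f (single 1 1 1) := by
      intro M
      have h1 : M = M 0 0 • single 0 0 (1 : K) + M 0 1 • single 0 1 (1 : K) +
          M 1 0 • single 1 0 (1 : K) + M 1 1 • single 1 1 (1 : K) := by
        ext i j
        fin_cases i <;> fin_cases j <;> simp
      conv_lhs => rw [h1]
      simp only [map_add, map_smul, smul_eq_mul]
    set a := f (single 0 0 1) with ha
    set b := f (single 0 1 1) with hb
    set c := f (single 1 0 1) with hc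
    have hone : (1 : Matrix (Fin 2) (Fin 2) K) ∈ S' := (hS' 1).2 ⟨0, S.zero_mem, 1, by simp⟩
    have hd : f (single 1 1 1) = -a := by
      have h1 := hf1 1 hone
      rw [hexp 1] at h1
      simp only [Matrix.one_apply_eq, Matrix.one_apply_ne (show (0 : Fin 2) ≠ 1 by decide),
        Matrix.one_apply_ne (show (1 : Fin 2) ≠ 0 by decide)] at h1
      linear_combination h1
    have hlin : ∀ M ∈ S', a * (M 0 0 - M 1 1) + b * M 0 1 + c * M 1 0 = 0 := by
      intro M hM
      have h1 := hf1 M hM
      rw [hexp M, hd] at h1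
      linear_combination h1
    by_cases hdis : a ^ 2 + b * c = 0
    · -- nilpotent case
      obtain ⟨q, hq⟩ := IsAlgClosed.exists_pow_nat_eq b (n := 2) (by norm_num)
      obtain ⟨p, hp⟩ := IsAlgClosed.exists_pow_nat_eq (-c) (n := 2) (by norm_num)
      have h1 : (p * q - a) * (p * q + a) = 0 := by
        have : (p * q) ^ 2 = -c * b := by rw [mul_pow, hp, hq]
        linear_combination this - hdis
      have hne0 : ¬ (p = 0 ∧ q = 0) := by
        rintro ⟨hp0, hq0⟩
        have hb0 : b = 0 := by rw [← hq, hq0]; ring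
        have hc0 : c = 0 := by
          have : -c = 0 := by rw [← hp, hp0]; ring
          exact neg_eq_zero.1 this
        have ha0 : a = 0 := by
          rw [hb0, zero_mul, add_zero] at hdis
          exact pow_eq_zero_iff (two_ne_zero) |>.1 hdis
        apply hf0
        refine LinearMap.ext fun M => ?_
        rw [hexp M, hd, ha0, hb0, hc0]
        simp
      rcases mul_eq_zero.1 h1 with h2 | h2
      · refine hev p q hne0 fun M hM => ?_
        have h3 := hlin M hM
        have h4 : p * q = a := by linear_combination h2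
        rw [h4, hq, hp]
        linear_combination h3
      · refine hev (-p) q (fun h => hne0 ⟨neg_eq_zero.1 h.1, h.2⟩) fun M hM => ?_
        have h3 := hlin M hM
        have h4 : -p * q = a := by linear_combination -h2
        rw [h4, hq, neg_sq, hp]
        linear_combination h3
    · -- all the traceless parts are proportional
      have hcr : ∀ M ∈ S', ∀ N ∈ S',
          M 0 1 * N 1 0 - M 1 0 * N 0 1 = 0 ∧
          M 1 0 * (N 0 0 - N 1 1) - (M 0 0 - M 1 1) * N 1 0 = 0 ∧
          (M 0 0 - M 1 1) * N 0 1 - M 0 1 * (N 0 0 - N 1 1) = 0 := by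
        intro M hM N hN
        have h1 := hlin M hM
        have h2 := hlin N hN
        have h3 := hlin (M * N - N * M) ((hS' (M * N - N * M)).2
          ⟨M * N - N * M, hbr M hM N hN, 0, by simp⟩)
        simp only [Matrix.sub_apply, Matrix.mul_apply, Fin.sum_univ_two] at h3
        have h4 : 2 * a * (M 0 1 * N 1 0 - M 1 0 * N 0 1) +
            c * (M 1 0 * (N 0 0 - N 1 1) - (M 0 0 - M 1 1) * N 1 0) +
            b * ((M 0 0 - M 1 1) * N 0 1 - M 0 1 * (N 0 0 - N 1 1)) = 0 := by
          linear_combination h3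
        have h5 : (2 * (a ^ 2 + b * c)) ≠ 0 := mul_ne_zero two_ne_zero hdis
        refine ⟨?_, ?_, ?_⟩
        · refine (mul_eq_zero.1 ?_).resolve_left h5
          linear_combination a * h4 + (c * N 1 0 - b * N 0 1) * h1 - (c * M 1 0 - b * M 0 1) * h2
        · refine (mul_eq_zero.1 ?_).resolve_left h5
          linear_combination b * h4 + (-2 * a * N 1 0 + b * (N 0 0 - N 1 1)) * h1 -
            (-2 * a * M 1 0 + b * (M 0 0 - M 1 1)) * h2
        · refine (mul_eq_zero.1 ?_).resolve_left h5
          linear_combination c * h4 + (2 * a * N 0 1 - c * (N 0 0 - N 1 1)) * h1 -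
            (2 * a * M 0 1 - c * (M 0 0 - M 1 1)) * h2
      by_cases hex : ∃ M ∈ S', ¬ (M 0 0 - M 1 1 = 0 ∧ M 0 1 = 0 ∧ M 1 0 = 0)
      · obtain ⟨M, hM, hM0⟩ := hex
        obtain ⟨p, q, hpq, h1⟩ := zero_of (M 0 0 - M 1 1) (M 0 1) (M 1 0)
        refine hev p q hpq fun N hN => ?_
        obtain ⟨e1, e2, e3⟩ := hcr M hM N hN
        by_cases hD : M 0 0 - M 1 1 = 0
        · by_cases hB : M 0 1 = 0
          · have hC : M 1 0 ≠ 0 := fun hC => hM0 ⟨hD, hB, hC⟩
            refine (mul_eq_zero.1 ?_).resolve_left hC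
            linear_combination N 1 0 * h1 + p * q * e2 - q ^ 2 * e1
          · refine (mul_eq_zero.1 ?_).resolve_left hB
            linear_combination N 0 1 * h1 - p * q * e3 - p ^ 2 * e1
        · refine (mul_eq_zero.1 ?_).resolve_left hD
          linear_combination (N 0 0 - N 1 1) * h1 + q ^ 2 * e3 + p ^ 2 * e2
      · push Not at hex
        refine hev 1 0 (by simp) fun N hN => ?_
        obtain ⟨e1, e2, e3⟩ := hex N hN
        rw [e1, e2, e3]
        ring
  -- conclusion
  have h1 := Q75.EX.sl_perfect x hx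
  have h2 : Submodule.span K {z : Matrix (Fin 2) (Fin 2) K | ∃ a b, a.trace = 0 ∧ b.trace = 0 ∧
      z = a * b - b * a} ≤ S := by
    rw [Submodule.span_le]
    rintro _ ⟨a, b, _, _, rfl⟩
    exact hbr a (htop ▸ Submodule.mem_top) b (htop ▸ Submodule.mem_top)
  exact h2 h1

end Pool.Agent.Q75.EM
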