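import Pool.Agent.Q50.EM.Spec
import Pool.Agent.Q50.LR.Exp

/-!
# From the Lie algebra to the group
-/

set_option autoImplicit false

open Matrix Pool.Agent.Q50.LR Pool.Agent.Q50.EM

namespace Pool.Agent.Q75.EM

section norm

attribute [local instance] Matrix.linftyOpNormedRing Matrix.linftyOpNormedAlgebra

theorem exp_reindex {I J : Type} [Fintype I] [DecidableEq I] [Fintype J] [DecidableEq J]
    (e : I ≃ J) (M : Matrix I I ℂ) :
    NormedSpace.exp (M.reindex e e) = (NormedSpace.exp M).reindex e e := by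
  have hc : Continuous (Matrix.reindexAlgEquiv ℂ ℂ e) :=
    continuous_id.matrix_reindex e e
  exact (NormedSpace.map_exp (Matrix.reindexAlgEquiv ℂ ℂ e) hc M).symm

end norm

theorem exp_cube {I : Type} [Fintype I] [DecidableEq I] (N : Matrix I I ℂ) (h : N * N * N = 0) :
    NormedSpace.exp N = 1 + N + (2 : ℂ)⁻¹ • (N * N) := by
  rw [NormedSpace.exp_eq_tsum ℂ]
  have h1 : ∀ k ∉ Finset.range 3, ((Nat.factorial k : ℂ)⁻¹ • N ^ k) = 0 := by
    intro k hk
    rw [Finset.mem_range, not_lt] at hk
    obtain ⟨m, rfl⟩ := Nat.exists_eq_add_of_le hk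
    have h2 : N ^ 3 = 0 := by rw [pow_succ, pow_two, h]
    rw [pow_add, h2, zero_mul, smul_zero]
  change ∑' k, ((Nat.factorial k : ℂ)⁻¹ • N ^ k) = _
  rw [tsum_eq_sum h1, Finset.sum_range_succ, Finset.sum_range_succ, Finset.sum_range_one]
  simp [Nat.factorial, pow_two]

variable {r s t n : ℕ}

theorem block_mul (e e' : Matrix (Fin r) (Fin r) ℂ) (g g' : Matrix (Fin 2) (Fin 2) ℂ)
    (X X' : Matrix (Fin r) (Fin 2) ℂ) (Y Y' : Matrix (Fin r) (Fin s ⊕ Fin t) ℂ)
    (Z Z' : Matrix (Fin 2) (Fin s) ℂ) (d d' : ℂ) :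
    block e g X Y Z d * block e' g' X' Y' Z' d' =
      block (e * e') (g * g') (e * X' + X * g') (e * Y' + X * fromCols Z' 0 + d' • Y)
        (g * Z' + d' • Z) (d * d') := by
  ext i j
  rcases i with i | i | i | i <;> rcases j with j | j | j | j <;>
    simp [block, Matrix.mul_apply, Fintype.sum_sum_type, fromBlocks, fromCols, Matrix.one_apply,
      mul_comm, add_assoc]

/-- The matrix is in the group. -/
def Pr (e : Ix r s t ≃ Fin n) (H : Subgroup (GL (Fin n) ℂ)) (A : Matrix (Ix r s t) (Ix r s t) ℂ) :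
    Prop := ∃ h ∈ H, (h : Matrix (Fin n) (Fin n) ℂ) = A.reindex e e

theorem Pr_mul {e : Ix r s t ≃ Fin n} {H : Subgroup (GL (Fin n) ℂ)}
    {A B : Matrix (Ix r s t) (Ix r s t) ℂ} (hA : Pr e H A) (hB : Pr e H B) : Pr e H (A * B) := by
  obtain ⟨h, hh, h1⟩ := hA
  obtain ⟨k, hk, h2⟩ := hB
  refine ⟨h * k, H.mul_mem hh hk, ?_⟩
  rw [Units.val_mul, h1, h2, Matrix.reindex_apply, Matrix.reindex_apply, Matrix.reindex_apply,
    Matrix.submatrix_mul_equiv]

theorem Pr_exp {K : Type} [Field K] [Algebra K ℂ] {e : Ix r s t ≃ Fin n}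
    {H : Subgroup (GL (Fin n) ℂ)} (hH : IsAlgebraicGroup K H)
    (hL : ∀ M ∈ lieP ℂ r s t, M.reindex e e ∈ LC H) {M : Matrix (Ix r s t) (Ix r s t) ℂ}
    (hM : M ∈ lieP ℂ r s t) : Pr e H (NormedSpace.exp M) := by
  obtain ⟨h, hh, h1⟩ := LC_le_lieAlg hH (hL M hM) 1
  refine ⟨h, hh, ?_⟩
  rw [h1, one_smul, exp_reindex]

theorem block_one : block (1 : Matrix (Fin r) (Fin r) ℂ) 1 0 (0 : Matrix (Fin r) (Fin s ⊕ Fin t) ℂ)
    0 1 = 1 := by
  ext i j
  rcases i with i | i | i | i <;> rcases j with j | j | j | j <;>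
    simp [block, fromBlocks, fromCols, Matrix.one_apply]

theorem block_add (e e' : Matrix (Fin r) (Fin r) ℂ) (g g' : Matrix (Fin 2) (Fin 2) ℂ)
    (X X' : Matrix (Fin r) (Fin 2) ℂ) (Y Y' : Matrix (Fin r) (Fin s ⊕ Fin t) ℂ)
    (Z Z' : Matrix (Fin 2) (Fin s) ℂ) (d d' : ℂ) :
    block e g X Y Z d + block e' g' X' Y' Z' d' =
      block (e + e') (g + g') (X + X') (Y + Y') (Z + Z') (d + d') := by
  ext i j
  rcases i with i | i | i | i <;> rcases j with j | j | j | j <;>
    simp [block, fromBlocks, fromCols, add_mul]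

theorem block_smul (c : ℂ) (e : Matrix (Fin r) (Fin r) ℂ) (g : Matrix (Fin 2) (Fin 2) ℂ)
    (X : Matrix (Fin r) (Fin 2) ℂ) (Y : Matrix (Fin r) (Fin s ⊕ Fin t) ℂ)
    (Z : Matrix (Fin 2) (Fin s) ℂ) (d : ℂ) :
    c • block e g X Y Z d = block (c • e) (c • g) (c • X) (c • Y) (c • Z) (c • d) := by
  ext i j
  rcases i with i | i | i | i <;> rcases j with j | j | j | j <;>
    simp [block, fromBlocks, fromCols, mul_assoc]

theorem j5 : Q50.EM.J5 := by
  intro K _ _ r s t n e H hH hL g hg X Y Z
  -- the unipotent part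
  have h1 : ∀ (X : Matrix (Fin r) (Fin 2) ℂ) (Y : Matrix (Fin r) (Fin s ⊕ Fin t) ℂ)
      (Z : Matrix (Fin 2) (Fin s) ℂ), Pr e H (block 1 1 X Y Z 1) := by
    intro X Y Z
    have h2 := Pr_exp hH hL (mem_lieP.2 ⟨0, X, Y - (2 : ℂ)⁻¹ • (X * fromCols Z 0), Z, rfl⟩)
    rw [exp_cube] at h2
    · rw [← block_one, block_mul, block_smul, block_add, block_add] at h2
      convert h2 using 2 <;> simp
    · rw [block_mul, block_mul]
      ext i j
      rcases i with i | i | i | i <;> rcases j with j | j | j | j <;>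
        simp [block, fromBlocks, fromCols]
  -- the semisimple part
  have h2 : Pr e H (block 1 g 0 0 0 g.det) := by
    refine Matrix.diagonal_transvection_induction_of_det_ne_zero
      (fun g => Pr e H (block 1 g 0 0 0 g.det)) g hg ?_ ?_ ?_
    · intro D hD
      rw [Matrix.det_diagonal, Fin.prod_univ_two] at hD
      have hD0 : D 0 ≠ 0 := left_ne_zero_of_mul hD
      have hD1 : D 1 ≠ 0 := right_ne_zero_of_mul hD
      have h3 := Pr_exp hH hL (mem_lieP.2 ⟨diagonal ![Complex.log (D 0), Complex.log (D 1)],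
        0, 0, 0, rfl⟩)
      have h4 : block (0 : Matrix (Fin r) (Fin r) ℂ) (diagonal ![Complex.log (D 0), Complex.log (D 1)])
          0 (0 : Matrix (Fin r) (Fin s ⊕ Fin t) ℂ) 0
          (diagonal ![Complex.log (D 0), Complex.log (D 1)]).trace =
          diagonal (Sum.elim (fun _ => 0) (Sum.elim ![Complex.log (D 0), Complex.log (D 1)]
            fun _ => Complex.log (D 0) + Complex.log (D 1))) := by
        ext i j
        rcases i with i | i | i | i <;> rcases j with j | j | j | j <;>
          simp [block, fromBlocks, fromCols, Matrix.diagonal_apply, Matrix.one_apply,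
            Matrix.trace, Fin.sum_univ_two]
      rw [h4, Matrix.exp_diagonal] at h3
      convert h3 using 2
      ext i j
      rw [Matrix.det_diagonal, Fin.prod_univ_two]
      rcases i with i | i | i | i <;> rcases j with j | j | j | j <;>
        simp [block, fromBlocks, fromCols, Matrix.diagonal_apply, Matrix.one_apply,
          NormedSpace.exp_zero]
      · have h5 : NormedSpace.exp (![Complex.log (D 0), Complex.log (D 1)] i) = D i := by
          rw [← Complex.exp_eq_exp_ℂ]
          fin_cases i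
          · exact Complex.exp_log hD0
          · exact Complex.exp_log hD1
        rw [h5]
      all_goals rw [← Complex.exp_eq_exp_ℂ, Complex.exp_add, Complex.exp_log hD0,
        Complex.exp_log hD1]
    · intro T
      have h3 := Pr_exp hH hL (mem_lieP.2 ⟨single T.i T.j T.c, 0, 0, 0, rfl⟩)
      have h4 : single T.i T.j T.c * single T.i T.j T.c = (0 : Matrix (Fin 2) (Fin 2) ℂ) :=
        Matrix.single_mul_single_of_ne _ _ _ _ T.hij.symm _
      rw [exp_cube] at h3
      · rw [← block_one, block_mul, block_smul, block_add, block_add, h4,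
          Matrix.trace_single_eq_of_ne _ _ _ T.hij] at h3
        have h5 : T.toMatrix = 1 + single T.i T.j T.c := rfl
        have h6 : T.toMatrix.det = 1 := T.det
        convert h3 using 2
        all_goals first
          | (rw [h6]; simp)
          | simp [h5]
      · rw [block_mul, block_mul, h4, Matrix.trace_single_eq_of_ne _ _ _ T.hij]
        ext i j
        rcases i with i | i | i | i <;> rcases j with j | j | j | j <;>
          simp [block, fromBlocks, fromCols]
    · intro A B _ _ hA hB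
      have h3 := Pr_mul hA hB
      rw [block_mul] at h3
      convert h3 using 2
      all_goals simp
  -- the product
  have h3 := Pr_mul (h1 (X * g⁻¹) (g.det⁻¹ • Y) (g.det⁻¹ • Z)) h2
  rw [block_mul] at h3
  have h4 : g⁻¹ * g = 1 := Matrix.nonsing_inv_mul g (isUnit_iff_ne_zero.2 hg)
  have h5 : Pr e H (block 1 g X Y Z g.det) := by
    convert h3 using 2
    · simp
    · simp
    · simp [Matrix.mul_assoc, h4]
    · simp [smul_smul, hg]
    · simp [smul_smul, hg]
    · simp
  exact h5

end Pool.Agent.Q75.EM
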